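import Pool.Agent.Helper75.CR.St

set_option autoImplicit false

/-!
# Project CR, module M4
-/

namespace Pool.Agent.Helper81.CR

open Pool.Agent.Helper75.CR Helper1.IM

theorem jl_trans {B : Type} {S : Sgn B} {ρ : Pg S} {u v w : Wo B} (h1 : Jl ρ u v) (h2 : Jl ρ v w) :
    Jl ρ u w := by
  obtain ⟨a, d, h1⟩ := h1
  obtain ⟨a', d', h2⟩ := h2
  refine ⟨a ++ a', d' ++ d, ρ.trans' h1 ?_⟩
  have := ρ.mul' a d h2
  simpa [List.append_assoc] using this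

theorem jl_of {B : Type} {S : Sgn B} {ρ : Pg S} {u v : Wo B} (h : ρ.r u v) : Jl ρ u v :=
  ⟨[], [], by simpa using h⟩

theorem key_jl (hL3 : Helper75.CR.StL3) {ρ : FIC} (crw : CRW (toP ρ)) (sgw : SGW (toP ρ)) {s t : Wd}
    (hs : s ≠ []) (hst : ρ.r s t) {i : ℕ} (hi : i ∈ ct t) (hi' : i ∉ ct s) {w z : Wd} (hw : w ≠ [])
    (hz : z ≠ []) : Jl (toP ρ) w z := by
  set f : ℕ → Wd := fun j => if j = i then z else w with hf
  have hfn : ∀ j, f j ≠ [] := by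
    intro j
    by_cases hj : j = i
    · simp [hf, hj, hz]
    · simp [hf, hj, hw]
  have h1 := ρ.sub' f hfn hst
  have ht : t ≠ [] := ρ.ne'' hst hs
  have hS : ct (sb f s) = ct w := by
    have := cn_sB_const SB f (ct w) hs (fun j hj => by
      have h2 : j ≠ i := fun h => hi' (h ▸ hj)
      change ct (f j) = ct w
      simp [hf, h2])
    exact this
  have hT : ct z ⊆ ct (sb f t) := by
    rw [ct_sb]
    intro j hj
    rw [Finset.mem_biUnion]
    exact ⟨i, hi, by simpa [hf] using hj⟩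
  have j1 : Jl (toP ρ) w (sb f s) :=
    (hL3 Bool SB (toP ρ) crw sgw w (sb f s) hw (by
      change ct (sb f s) ⊆ ct w
      rw [hS])).2.2 (sb_ne_nil f hfn s hs)
  have j2 : Jl (toP ρ) (sb f t) z :=
    (hL3 Bool SB (toP ρ) crw sgw (sb f t) z (sb_ne_nil f hfn t ht) hT).2.2 hz
  exact jl_trans (jl_trans j1 (jl_of (ρ := toP ρ) h1)) j2

theorem hM4 (hL1 : Helper75.CR.StL1) (hL2 : Helper75.CR.StL2) (hL3 : Helper75.CR.StL3)
    (hM1 : Helper75.CR.StM1) (hM2 : Helper75.CR.StM2) : Helper75.CR.StM4 := by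
  intro ρ hC hS s t hs hst hne w z hw hz
  have crw := (hM1 ρ hC).1
  have sgw := hM2 ρ hS
  have hJ : Jl (toP ρ) w z := by
    have : (∃ i, i ∈ ct t ∧ i ∉ ct s) ∨ ∃ i, i ∈ ct s ∧ i ∉ ct t := by
      by_contra hcon
      push Not at hcon
      apply hne
      ext i
      exact ⟨fun h => hcon.2 i h, fun h => hcon.1 i h⟩
    rcases this with ⟨i, h1, h2⟩ | ⟨i, h1, h2⟩
    · exact key_jl hL3 crw sgw hs hst h1 h2 hw hz
    · exact key_jl hL3 crw sgw (ρ.ne'' hst hs) (ρ.symm' hst) h1 h2 hw hz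
  obtain ⟨a, d, h1⟩ := hL1 Bool SB (toP ρ) crw w z w hw hz hw hJ (jl_of (ρ := toP ρ) (ρ.refl' w))
  have h1' : ρ.r w ((a ++ z) ++ w ++ d) := by
    have h2 : ρ.r w (a ++ (z ++ w) ++ d) := h1
    simpa [List.append_assoc] using h2
  have hy : a ++ z ≠ [] := by simp [hz]
  obtain ⟨b, hb⟩ := (crw (a ++ z) hy).2
  have hb' : ρ.r (a ++ z) (b ++ (a ++ z) ++ (a ++ z)) := hb
  refine ⟨b ++ a, ?_⟩
  have h3 : ρ.r w ((b ++ (a ++ z)) ++ ((a ++ z) ++ w ++ d)) := by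
    have h4 := ρ.mul' [] (w ++ d) hb'
    have h5 : ρ.r ((a ++ z) ++ w ++ d) ((b ++ (a ++ z)) ++ ((a ++ z) ++ w ++ d)) := by
      simpa [List.append_assoc] using h4
    exact ρ.trans' h1' h5
  have h6 : ρ.r ((b ++ (a ++ z)) ++ ((a ++ z) ++ w ++ d)) ((b ++ (a ++ z)) ++ w) :=
    ρ.mulL _ (ρ.symm' h1')
  have h7 := ρ.trans' h3 h6
  simpa [List.append_assoc] using h7

end Pool.Agent.Helper81.CR
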